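import Pool.Agent.helper18.CWM.SpecL

/-!
# Project cwm, row EFR (Efron-Stein)
-/

open Finset

namespace CWM

lemma EFR_var1 (V U : Type) [Fintype V] [DecidableEq V] [Fintype U] (D : Dyn V U)
    (h0 : ∀ u, 0 ≤ D.nu u) (h1 : ∑ u, D.nu u = 1) (S : Finset V) (hS : S.Nonempty)
    (G : V × U → ℝ) (b : V → ℝ) (hb : ∀ z, 0 ≤ b z)
    (h : ∀ a a' : V × U, |G a - G a'| ≤ b a.1 + b a'.1) :
    Wa D S (fun a => G a ^ 2) / S.card - (Wa D S G / S.card) ^ 2 ≤ 2 * ((∑ z ∈ S, b z ^ 2) / S.card) := by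
  have hN : (0 : ℝ) < S.card := by exact_mod_cast Finset.card_pos.2 hS
  set N : ℝ := (S.card : ℝ) with hNdef
  set B : ℝ := ∑ z ∈ S, b z ^ 2 with hBdef
  set W2 : ℝ := Wa D S (fun a => G a ^ 2) with hW2
  set W1 : ℝ := Wa D S G with hW1
  have hWB : Wa D S (fun a => b a.1 ^ 2) = B := by
    unfold Wa
    rw [hBdef]
    refine Finset.sum_congr rfl fun x _ => ?_
    show ∑ u, D.nu u * b x ^ 2 = b x ^ 2
    rw [← Finset.sum_mul, h1, one_mul]
  have key : ∀ a' : V × U, W2 - 2 * G a' * W1 + N * G a' ^ 2 ≤ 2 * B + 2 * N * b a'.1 ^ 2 := by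
    intro a'
    have e1 : Wa D S (fun a => (G a - G a') ^ 2) = W2 - 2 * G a' * W1 + N * G a' ^ 2 := by
      have : (fun a => (G a - G a') ^ 2) = fun a => (G a ^ 2 - (2 * G a') * G a) + G a' ^ 2 := by
        funext a; ring
      rw [this, Wa_add D S (fun a => G a ^ 2 - (2 * G a') * G a) (fun _ => G a' ^ 2),
        Wa_sub D S (fun a => G a ^ 2) (fun a => (2 * G a') * G a), Wa_smul, Wa_const D h1]
    have e2 : Wa D S (fun a => 2 * b a.1 ^ 2 + 2 * b a'.1 ^ 2) = 2 * B + 2 * N * b a'.1 ^ 2 := by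
      rw [Wa_add D S (fun a => 2 * b a.1 ^ 2) (fun _ => 2 * b a'.1 ^ 2), Wa_smul, Wa_const D h1, hWB]
      ring
    rw [← e1, ← e2]
    refine Wa_mono D h0 fun a _ => ?_
    have h2 := h a a'
    have h3 : (G a - G a') ^ 2 ≤ (b a.1 + b a'.1) ^ 2 := by
      rw [← sq_abs (G a - G a')]
      exact pow_le_pow_left₀ (abs_nonneg _) h2 2
    nlinarith [sq_nonneg (b a.1 - b a'.1)]
  have e3 : Wa D S (fun a' => W2 - 2 * G a' * W1 + N * G a' ^ 2) = 2 * N * W2 - 2 * W1 ^ 2 := by
    have : (fun a' => W2 - 2 * G a' * W1 + N * G a' ^ 2) =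
        fun a' => (W2 - (2 * W1) * G a') + N * G a' ^ 2 := by
      funext a; ring
    rw [this, Wa_add D S (fun a' => W2 - (2 * W1) * G a') (fun a' => N * G a' ^ 2),
      Wa_sub D S (fun _ => W2) (fun a' => (2 * W1) * G a'), Wa_smul, Wa_smul, Wa_const D h1, ← hW1, ← hW2]
    ring
  have e4 : Wa D S (fun a' => 2 * B + 2 * N * b a'.1 ^ 2) = 4 * N * B := by
    rw [Wa_add D S (fun _ => 2 * B) (fun a' => 2 * N * b a'.1 ^ 2),
      Wa_smul D S (2 * N) (fun a' => b a'.1 ^ 2), Wa_const D h1, hWB]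
    ring
  have h5 : 2 * N * W2 - 2 * W1 ^ 2 ≤ 4 * N * B := by
    rw [← e3, ← e4]
    exact Wa_mono D h0 fun a' _ => key a'
  have e6 : W2 / N - (W1 / N) ^ 2 = (N * W2 - W1 ^ 2) / N ^ 2 := by
    field_simp
  have e7 : 2 * (B / N) = (2 * N * B) / N ^ 2 := by
    field_simp
  rw [e6, e7]
  exact div_le_div_of_nonneg_right (by linarith) (by positivity)

theorem EFR : EFR_stmt := by
  intro V U _ _ _ D h0 h1 S hS m
  have hN : (0 : ℝ) < S.card := by exact_mod_cast Finset.card_pos.2 hS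
  induction m with
  | zero =>
    intro F b hb hF
    simp [Ew_zero]
  | succ m ih =>
    intro F b hb hF
    set g : V × U → ℝ := fun a => Ew D S m fun w => F (a :: w) with hg
    have hgd : ∀ a a' : V × U, |g a - g a'| ≤ b [] a.1 + b [] a'.1 := by
      intro a a'
      have e : g a - g a' = Ew D S m fun w => F (a :: w) - F (a' :: w) := by
        rw [hg, Ew_sub]
      have hc : ∀ c : ℝ, Ew D S m (fun _ => c) = c := fun c => Ew_const D h1 hS m c
      rw [e, abs_le]
      constructor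
      · rw [← hc (-(b [] a.1 + b [] a'.1))]
        refine Ew_mono D h0 fun w _ _ => ?_
        have := hF [] w a a'
        exact (abs_le.1 this).1
      · rw [← hc (b [] a.1 + b [] a'.1)]
        refine Ew_mono D h0 fun w _ _ => ?_
        have := hF [] w a a'
        exact (abs_le.1 this).2
    have hv := EFR_var1 V U D h0 h1 S hS g (b []) (hb []) hgd
    have hi : ∀ a : V × U, Ew D S m (fun w => F (a :: w) ^ 2) ≤
        g a ^ 2 + 2 * ∑ j ∈ range m, Ew D S j fun w1 => (∑ z ∈ S, b (a :: w1) z ^ 2) / S.card := by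
      intro a
      have := ih (fun w => F (a :: w)) (fun w => b (a :: w)) (fun w z => hb (a :: w) z)
        (fun w1 w2 c c' => hF (a :: w1) w2 c c')
      linarith
    have hs : Wa D S (fun a => Ew D S m (fun w => F (a :: w) ^ 2)) ≤
        Wa D S (fun a => g a ^ 2) + 2 * ∑ j ∈ range m,
          Wa D S (fun a => Ew D S j fun w1 => (∑ z ∈ S, b (a :: w1) z ^ 2) / S.card) := by
      rw [← Wa_sum, ← Wa_smul, ← Wa_add]
      exact Wa_mono D h0 fun a _ => hi a
    have hs2 := div_le_div_of_nonneg_right hs hN.le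
    rw [← Ew_succ D S m (fun w => F w ^ 2)] at hs2
    have hm : Ew D S (m + 1) F = Wa D S g / S.card := Ew_succ D S m F
    rw [Finset.sum_range_succ', Ew_zero, hm]
    have hsum : (Wa D S (fun a => g a ^ 2) + 2 * ∑ j ∈ range m,
          Wa D S (fun a => Ew D S j fun w1 => (∑ z ∈ S, b (a :: w1) z ^ 2) / S.card)) / S.card =
        Wa D S (fun a => g a ^ 2) / S.card + 2 * ∑ j ∈ range m, Ew D S (j + 1) fun w1 => (∑ z ∈ S, b w1 z ^ 2) / S.card := by
      rw [add_div, mul_div_assoc, Finset.sum_div]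
      congr 2
      exact Finset.sum_congr rfl fun j _ => (Ew_succ D S j fun w1 => (∑ z ∈ S, b w1 z ^ 2) / S.card).symm
    rw [hsum] at hs2
    linarith

end CWM
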