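import Pool.Agent.helper18.CWM.SpecH

/-!
# Project cwm, row S2A (second stage)
-/

open Finset Filter Topology

namespace CWM

lemma S2A_Es_nonneg (V U : Type) [Fintype V] [DecidableEq V] [Fintype U] (D : Dyn V U)
    (h0 : ∀ u, 0 ≤ D.nu u) (S : Finset V) (a J : ℕ) (F : List (List (V × U)) → ℝ) (hF : ∀ ws, 0 ≤ F ws) :
    0 ≤ Es D S a J F := by
  induction J generalizing F with
  | zero => exact hF []
  | succ J ih =>
    show 0 ≤ Ew D S a fun w => Es D S a J fun ws => F (w :: ws)
    exact Ew_nonneg D h0 fun w _ _ => ih _ fun ws => hF (w :: ws)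

theorem S2A (hHG : HG_stmt) : S2A_stmt := by
  intro V U _ _ _ D d hOk R good a c J b hR hb hgood
  obtain ⟨_, h2, h3, h4, _⟩ := hHG V U D d hOk R hR
  induction J with
  | zero =>
    intro C
    have e1 : Es D R a 0 (fun ws => ind (NG D good ws C)) = 1 := by
      show ind (NG D good [] C) = 1
      exact ind_of trivial
    rw [e1]
    have := (h2 (0 * a + c) C).2.1
    linarith
  | succ J ih =>
    intro C
    have e1 : (J + 1) * a + c = a + (J * a + c) := by ring
    rw [e1]
    refine (h4 a (J * a + c) C).trans ?_
    have e2 : b + Es D R a (J + 1) (fun ws => ind (NG D good ws C)) =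
        Ew D R a fun w => b + Es D R a J fun ws => ind (NG D good (w :: ws) C) := by
      rw [Ew_add D R a (fun _ => b) (fun w => Es D R a J fun ws => ind (NG D good (w :: ws) C)),
        Ew_const D hOk.nu1 hR]
      rfl
    rw [e2]
    refine Ew_mono D hOk.nu0 fun w _ _ => ?_
    by_cases hg : good (supS D w C)
    · have i1 := h3 c (J * a + c) (supS D w C) (Nat.le_add_left _ _)
      have i2 := hgood _ hg
      have i3 : 0 ≤ Es D R a J fun ws => ind (NG D good (w :: ws) C) :=
        S2A_Es_nonneg V U D hOk.nu0 R a J _ fun ws => ind_nonneg _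
      linarith
    · have i1 := ih (supS D w C)
      have i2 : (fun ws => ind (NG D good (w :: ws) C)) = fun ws => ind (NG D good ws (supS D w C)) := by
        funext ws
        refine ind_congr ⟨fun h => h.2, fun h => ⟨hg, h⟩⟩
      rw [i2]
      exact i1

end CWM
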